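import Pool.Agent.H4.Leh.Multi
import Pool.Agent.H25.AD.StructThm

/-!
# The structure theorem with several conjugates: numerics for the final form
-/

set_option autoImplicit false

namespace Pool.Agent.H4.Leh

open Polynomial IntermediateField Pool.H95.Leh Pool.Agent.H49.St H25

theorem SmallRank.mono {K : Type*} [Field K] [NumberField K] {β : K} {Z Z' : ℝ} (h : SmallRank β Z) (hZ : Z ≤ Z') :
    SmallRank β Z' := fun s hs g => h s (lt_of_le_of_lt hZ hs) g

/-- The structure theorem in real terms, with several conjugates. -/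
theorem struct_quant_multi (A : ℕ) : ∃ C : ℕ, ∃ c δ : ℝ, 1 ≤ C ∧ 0 < c ∧ 0 < δ ∧
    ∀ (K : Type) [Field K] [NumberField K] [IsGalois ℚ K] (β : K), IsU β → Red β → ¬ Tors β →
      ∀ n : ℕ, Module.finrank ℚ (IntermediateField.adjoin ℚ {β}) = n →
      c * (n : ℝ) ^ δ ≤ Real.log (mm β) ∨ (ZZ C n (mm β) < n ∧
      ∃ L : IntermediateField ℚ K, L ≤ IntermediateField.adjoin ℚ {β} ∧
        n ≤ 2 * Module.finrank ℚ L ∧ L ≠ ⊥ ∧
        (∀ M : IntermediateField ℚ K, M ≤ IntermediateField.adjoin ℚ {β} → ¬ L ≤ M →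
          (Module.finrank ℚ M : ℝ) ≤ ZZ C n (mm β)) ∧
        ∀ F : IntermediateField ℚ K, F < L →
          (∀ M : IntermediateField ℚ K, F ≤ M → M ≤ L → M = F ∨ M = L) →
          ∀ γ ∈ L, γ ∉ F → AlmostSimple (minpoly F γ).Gal ∧
          n ^ A ≤ Nat.card (minpoly F γ).Gal ∧
          ∀ r : ℕ, r ≤ A → ∀ y : Fin r → K, Function.Injective y →
            (∀ i, y i ∈ (minpoly F γ).rootSet K) → (r ≤ 2 ∨ ¬ SmallRank β (ZZ C n (mm β))) →
            (n : ℝ) ^ r ≤ ZZ C n (mm β) *
                Module.finrank ℚ (IntermediateField.adjoin ℚ (Set.range y))) := by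
  obtain ⟨C0, hC0, hmain⟩ := structure_red A
  obtain ⟨Cm, hCm, hmulti⟩ := multi A
  obtain ⟨p, hp⟩ : ∃ p : ℕ, p = 2 ^ A := ⟨_, rfl⟩
  obtain ⟨q, hq⟩ : ∃ q : ℕ, q = A ^ 2 := ⟨_, rfl⟩
  set B : ℕ := C0 + Cm + p + q with hB
  have hB1 : 1 ≤ B := by omega
  obtain ⟨c, hc, hlog⟩ := log_mm_of_WW (3 * (6 * (2 * B))) (by omega)
  refine ⟨6 * (2 * B), c, 1 / (2 * ((3 * (6 * (2 * B)) : ℕ) : ℝ)), by omega, hc, by positivity, ?_⟩
  intro K _ _ _ β hβU hβR hβT n hn
  have hdeg : (minpoly ℚ β).natDegree = n := by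
    rw [← hn, IntermediateField.adjoin.finrank (IsIntegral.of_finite ℚ β)]
  have hn1 : 1 ≤ n := by
    rw [← hdeg]
    exact minpoly.natDegree_pos (IsIntegral.of_finite ℚ β)
  have hm1 : 1 < mm β := one_lt_mm β hβU hβT
  set Y := ⌈max 1 (Real.log (mm β))⌉₊ with hY
  have hY1 : 1 ≤ Y := Nat.one_le_ceil_iff.2 (lt_of_lt_of_le one_pos (le_max_left _ _))
  have hmY : mm β ≤ Real.exp Y := by
    rw [← Real.log_le_iff_le_exp (by linarith)]
    exact (le_max_right 1 _).trans (Nat.le_ceil _)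
  -- comparison of the loss factors
  have hWB : ∀ C', C' ≤ B → 1 ≤ C' → WW C' n Y ≤ WW B n Y := fun C' h _ => WW_mono h hB1 hY1
  have hWB2 : WW B n Y ≤ WW (2 * B) n Y := WW_mono (by omega) (by omega) hY1
  have hsq : (WW B n Y) ^ 2 ≤ WW (2 * B) n Y := WW_pow B 2 hB1 (by norm_num) hY1
  have hpW : p * WW (C0 + Cm) n Y ≤ WW B n Y :=
    (WW_mul p (C0 + Cm) (by omega) hY1).trans (WW_mono (by omega) hB1 hY1)
  have hqW : q * WW Cm n Y ≤ WW B n Y :=
    (WW_mul q Cm hCm hY1).trans (WW_mono (by omega) hB1 hY1)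
  by_cases hcase : n ≤ WW (3 * (6 * (2 * B))) n Y
  · left
    have h1 := hlog K β hβU hm1 (by
      intro Y' hY' hmY'
      rw [hdeg]
      refine hcase.trans (WW_mono_Y _ _ ?_)
      rw [hY, Nat.ceil_le, max_le_iff]
      constructor
      · exact_mod_cast hY'
      · rwa [Real.log_le_iff_le_exp (by linarith)])
    rw [hdeg] at h1
    exact h1
  · right
    push Not at hcase
    have hZ := ZZ_le_WW (6 * (2 * B)) (by omega) n hn1 (mm β)
    have hW := WW_le_ZZ (2 * B) (by omega) n hn1 (mm β)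
    rw [← hY] at hZ hW
    refine ⟨lt_of_le_of_lt hZ (by exact_mod_cast hcase), ?_⟩
    have hn2 : 2 ≤ n := by
      have := one_le_WW (C := 3 * (6 * (2 * B))) (n := n) (Y := Y) (by omega) hY1
      omega
    rcases hmain K β Y hβU hβR hβT hY1 hmY with h | ⟨L, h1, hLchar, h2, h3, h4, h5⟩
    · exfalso
      rw [hn] at h
      have := WW_mono (C := C0) (C' := 3 * (6 * (2 * B))) (n := n) (Y := Y) (by omega) (by omega) hY1
      omega
    · rw [hn] at h2 h4
      refine ⟨L, h1, h2, h3, ?_, ?_⟩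
      · intro M hM hLM
        refine le_trans ?_ hW
        exact_mod_cast (h4 M hM hLM).trans ((hWB C0 (by omega) hC0).trans hWB2)
      · intro F hF hFm γ hγ hγF
        obtain ⟨g1, g2, -⟩ := h5 F hF hFm γ hγ hγF
        rw [hn] at g2
        refine ⟨g1, g2, ?_⟩
        intro r hr y hy hroot hcond
        have hFfin : Module.finrank ℚ F ≤ WW C0 n Y := h4 F (hF.le.trans h1) (not_le_of_gt hF)
        rcases hmulti K β Y hβU hβR hβT hY1 hmY (by rw [hn]; exact hn2) L hLchar F hF hFm γ hγ hγF r hr y hy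
          hroot with h6 | h6
        · exfalso
          rcases hcond with h7 | h7
          · omega
          · apply h7
            refine h6.2.mono (le_trans ?_ hW)
            rw [hn, ← hq]
            exact_mod_cast hqW.trans hWB2
        · rw [hn] at h6
          have h7 : n ^ r ≤ WW (2 * B) n Y * Module.finrank ℚ (IntermediateField.adjoin ℚ (Set.range y)) := by
            refine h6.trans (Nat.mul_le_mul_right _ ?_)
            have h8 : 2 ^ r ≤ p := by rw [hp]; exact Nat.pow_le_pow_right (by norm_num) hr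
            have h9 : WW Cm n Y ≤ WW (C0 + Cm) n Y := WW_mono (by omega) (by omega) hY1
            calc 2 ^ r * WW Cm n Y * Module.finrank ℚ F ≤ p * WW (C0 + Cm) n Y * WW C0 n Y :=
                  Nat.mul_le_mul (Nat.mul_le_mul h8 h9) hFfin
              _ ≤ WW B n Y * WW B n Y := Nat.mul_le_mul hpW (hWB C0 (by omega) hC0)
              _ = (WW B n Y) ^ 2 := (sq _).symm
              _ ≤ _ := hsq
          have h10 : (n : ℝ) ^ r ≤ (WW (2 * B) n Y : ℝ) *
              Module.finrank ℚ (IntermediateField.adjoin ℚ (Set.range y)) := by exact_mod_cast h7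
          exact h10.trans (mul_le_mul_of_nonneg_right hW (Nat.cast_nonneg _))

end Pool.Agent.H4.Leh
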