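import Pool.Agent.H4.Leh.Rank
import Pool.Agent.H25.AD.SPlus

/-!
# Several conjugates over a maximal subfield generate a field of almost maximal degree
-/

set_option autoImplicit false

namespace Pool.Agent.H4.Leh

open Polynomial IntermediateField Pool.H95.Leh Pool.Agent.H49.St H25

/-- The conjugates of `β` generate a multiplicative group of rank at most `Z`: any `s > Z` of them are multiplicatively dependent. -/
def SmallRank {K : Type*} [Field K] [NumberField K] (β : K) (Z : ℝ) : Prop :=
  ∀ s : ℕ, Z < s → ∀ g : Fin s → K ≃ₐ[ℚ] K, ∃ m : Fin s → ℤ, m ≠ 0 ∧ ∏ i, g i β ^ m i = 1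

section

variable {K : Type} [Field K] [NumberField K] [IsGalois ℚ K]

theorem smallRank_of_finrank (ι : K →+* ℂ) {β : K} (hβ : IsU β) {Z : ℕ}
    (h : Module.finrank ℚ (Submodule.span ℚ (Set.range fun g => act K g (Lg ι β))) ≤ Z) :
    SmallRank β (Z : ℝ) := by
  intro s hs g
  have hs' : Z < s := by exact_mod_cast hs
  set x : Fin s → ((K ≃ₐ[ℚ] K) → ℝ) := fun i => Lg ι (g i β) with hx
  have hfin : FiniteDimensional ℚ (Submodule.span ℚ (Set.range fun g => act K g (Lg ι β))) :=
    FiniteDimensional.span_of_finite ℚ (Set.finite_range _)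
  have hnot : ¬ LinearIndependent ℚ x := by
    intro hli
    have h1 : Module.finrank ℚ (Submodule.span ℚ (Set.range x)) = s := by
      rw [finrank_span_eq_card hli, Fintype.card_fin]
    have h2 : Submodule.span ℚ (Set.range x) ≤
        Submodule.span ℚ (Set.range fun g => act K g (Lg ι β)) := by
      apply Submodule.span_mono
      rintro _ ⟨i, rfl⟩
      exact ⟨g i, rfl⟩
    have h3 := Submodule.finrank_mono h2
    omega
  rw [← LinearIndependent.iff_fractionRing (R := ℤ) (K := ℚ), Fintype.not_linearIndependent_iff] at hnot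
  obtain ⟨m, hm, i0, hi0⟩ := hnot
  have hne : ∀ i, g i β ≠ 0 := fun i => (hβ.map (g i)).ne
  have h4 : Lg ι (∏ i, g i β ^ m i) = 0 := by
    rw [Lg_prod_zpow ι (fun i => g i β) hne m, ← hm]
    refine Finset.sum_congr rfl fun i _ => ?_
    rw [← Int.cast_smul_eq_zsmul ℚ]
  have hU : IsU (∏ i, g i β ^ m i) := IsU.prod _ _ fun i _ => (hβ.map (g i)).zpow (m i)
  obtain ⟨k, hk, h5⟩ := tors_of_Lg ι hU h4
  refine ⟨fun i => m i * k, ?_, ?_⟩
  · intro h6
    have h7 := congrFun h6 i0
    simp only [Pi.zero_apply, mul_eq_zero] at h7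
    rcases h7 with h7 | h7
    · exact hi0 h7
    · exact hk.ne' (by exact_mod_cast h7)
  · rw [← h5, ← Finset.prod_pow]
    refine Finset.prod_congr rfl fun i _ => ?_
    rw [zpow_mul, zpow_natCast]

/-- Several conjugates generate a large field. -/
theorem multi (A : ℕ) : ∃ C : ℕ, 1 ≤ C ∧
    ∀ (K : Type) [Field K] [NumberField K] [IsGalois ℚ K] (β : K) (Y : ℕ),
      IsU β → Red β → ¬ Tors β → 1 ≤ Y → mm β ≤ Real.exp Y →
      2 ≤ Module.finrank ℚ (IntermediateField.adjoin ℚ {β}) →
      ∀ L : IntermediateField ℚ K,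
        (∀ g : K ≃ₐ[ℚ] K, g ∈ L.fixingSubgroup ↔ Tors (g β / β) ∨ Tors (g β * β)) →
      ∀ F : IntermediateField ℚ K, F < L →
        (∀ M : IntermediateField ℚ K, F ≤ M → M ≤ L → M = F ∨ M = L) →
      ∀ γ ∈ L, γ ∉ F → ∀ r : ℕ, r ≤ A → ∀ y : Fin r → K, Function.Injective y →
        (∀ i, y i ∈ (minpoly F γ).rootSet K) →
        (2 < r ∧ SmallRank β ((A ^ 2 * WW C (Module.finrank ℚ (IntermediateField.adjoin ℚ {β})) Y : ℕ) : ℝ)) ∨
        Module.finrank ℚ (IntermediateField.adjoin ℚ {β}) ^ r ≤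
          2 ^ r * WW C (Module.finrank ℚ (IntermediateField.adjoin ℚ {β})) Y * Module.finrank ℚ F *
            Module.finrank ℚ (IntermediateField.adjoin ℚ (Set.range y)) := by
  choose! Cr hCr hWr using fun (r : ℕ) (hr : 1 ≤ r) => wide_of_AD r hr
  obtain ⟨C2, hC2, hW2⟩ := wide_of_AD 2 (by norm_num)
  set C := C2 + ∑ r ∈ Finset.range (A + 1), Cr r with hC
  have hC1 : 1 ≤ C := by omega
  have hCrle : ∀ r ≤ A, Cr r ≤ C := by
    intro r hr
    have h1 : Cr r ≤ ∑ r ∈ Finset.range (A + 1), Cr r :=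
      Finset.single_le_sum (f := Cr) (fun _ _ => Nat.zero_le _) (Finset.mem_range.mpr (by omega))
    omega
  refine ⟨C, hC1, ?_⟩
  intro K _ _ _ β Y hβU hβR hβT hY hmm hn2 L hL F hFL hFmax γ hγL hγF r hrA y hyinj hyroot
  set n : ℕ := Module.finrank ℚ (IntermediateField.adjoin ℚ {β}) with hn
  have hdeg : (minpoly ℚ β).natDegree = n :=
    (IntermediateField.adjoin.finrank (IsIntegral.of_finite ℚ β)).symm
  let ι : K →+* ℂ := Classical.arbitrary (K →+* ℂ)
  set a := Lg ι β with ha
  have ha0 : a ≠ 0 := fun h => hβT (tors_of_Lg ι hβU h)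
  have hidx : (stab (act K) a).index = n := by
    rw [stab_index_Lg ι hβU hβR, hdeg]
  set H := lstab (act K) a with hH
  have hLH : L.fixingSubgroup = H := by
    ext g
    rw [hL, hH, mem_lstab, ha, Lg_act, Lg_eq_iff ι (hβU.map g) hβU, Lg_eq_neg_iff ι (hβU.map g) hβU]
  have hLf : L = fixedField H := by rw [← hLH, IsGalois.fixedField_fixingSubgroup]
  obtain ⟨G0, hG0⟩ : ∃ G0 : Subgroup (K ≃ₐ[ℚ] K), G0 = F.fixingSubgroup := ⟨_, rfl⟩
  have hFG : F = fixedField G0 := by rw [hG0, IsGalois.fixedField_fixingSubgroup]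
  have hanti : ∀ {A B : Subgroup (K ≃ₐ[ℚ] K)}, A ≤ B → fixedField B ≤ fixedField A := by
    intro A B hAB x hx σ
    exact hx ⟨σ, hAB σ.2⟩
  have hanti' : ∀ {A B : IntermediateField ℚ K}, A ≤ B → B.fixingSubgroup ≤ A.fixingSubgroup := by
    intro A B hAB σ hσ
    rw [IntermediateField.mem_fixingSubgroup_iff] at hσ ⊢
    exact fun x hx => hσ x (hAB hx)
  have hLfix : (fixedField H).fixingSubgroup = H := fixingSubgroup_fixedField H
  subst hFG
  have hFfix : (fixedField G0).fixingSubgroup = G0 := hG0.symm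
  have hcov : H ⋖ G0 := by
    constructor
    · refine lt_of_le_of_ne ?_ ?_
      · have := hanti' hFL.le
        rwa [hLH, hFfix] at this
      · intro h
        rw [hLf, h] at hFL
        exact lt_irrefl _ hFL
    · intro J hHJ hJG
      rcases hFmax (fixedField J) (hanti hJG.le) (by rw [hLf]; exact hanti hHJ.le) with h | h
      · have h1 := congrArg IntermediateField.fixingSubgroup h
        rw [fixingSubgroup_fixedField, hFfix] at h1
        exact hJG.ne h1
      · have h1 := congrArg IntermediateField.fixingSubgroup h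
        rw [fixingSubgroup_fixedField, hLH] at h1
        exact hHJ.ne h1.symm
  obtain ⟨-, hmemH, hroots⟩ := gal_equiv H G0 hcov γ (by rw [← hLf]; exact hγL) hγF
  -- the conjugates
  have hyg : ∀ i, ∃ g ∈ G0, y i = g γ := fun i => (hroots (y i)).mp (hyroot i)
  choose g hgG hgy using hyg
  have hdist : ∀ i j, i ≠ j → (g i)⁻¹ * g j ∉ H := by
    intro i j hij h
    have h1 := (hmemH _ (G0.mul_mem (G0.inv_mem (hgG i)) (hgG j))).mp h
    have h2 : g j γ = g i γ := by
      have h3 := congrArg (g i) h1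
      rwa [← AlgEquiv.mul_apply, mul_inv_cancel_left] at h3
    exact hij (hyinj (by rw [hgy, hgy, h2]))
  -- pairs
  have hw2 := hW2 K ι β Y hβU hβR hY hmm (by rw [hdeg]; exact hn2)
  have H2n : ∀ s, LinearIndependent ℚ ![a, act K s a] →
      (stab (act K) a).index ^ 2 ≤ WW C n Y * (stab (act K) a ⊓ stab (act K) (act K s a)).index := by
    intro s hs
    have h1 := hw2 ![a, act K s a] (by
      intro i
      fin_cases i
      · exact ⟨1, by rw [map_one]; rfl⟩
      · exact ⟨s, rfl⟩) hs
    have h2 : (⨅ i, stab (act K) ((![a, act K s a] : Fin 2 → _) i)) = stab (act K) a ⊓ stab (act K) (act K s a) := by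
      ext x
      rw [Subgroup.mem_iInf, Subgroup.mem_inf, Fin.forall_fin_two]
      rfl
    rw [h2] at h1
    refine h1.trans (Nat.mul_le_mul_right _ ?_)
    rw [← ha, hidx]
    exact WW_mono (by omega) hC1 hY
  by_cases hli : LinearIndependent ℚ (fun i => act K (g i) a)
  · right
    rcases Nat.eq_zero_or_pos r with hr0 | hr0
    · subst hr0
      rw [pow_zero]
      have e1 : 0 < WW C n Y := one_le_WW hC1 hY
      have e2 : 0 < Module.finrank ℚ (fixedField G0) := Module.finrank_pos
      have e3 : 0 < Module.finrank ℚ (IntermediateField.adjoin ℚ (Set.range y)) := Module.finrank_pos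
      exact Nat.mul_pos (Nat.mul_pos (Nat.mul_pos (by norm_num) e1) e2) e3
    · have h1 := hWr r hr0 K ι β Y hβU hβR hY hmm (by rw [hdeg]; exact hn2) (fun i => act K (g i) a)
        (fun i => ⟨g i, rfl⟩) hli
      rw [← ha, hidx] at h1
      have h2 := index_iInf_stab_le' (act K) (fun i => act K (g i) a)
      have h3 : (G0 ⊓ (IntermediateField.adjoin ℚ (Set.range y)).fixingSubgroup) ≤
          ⨅ i, lstab (act K) (act K (g i) a) := by
        intro σ hσ
        rw [Subgroup.mem_iInf]
        intro i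
        rw [lstab_apply, mem_cj]
        have h4 : σ (y i) = y i := (mem_fix_adjoin _ _).mp hσ.2 _ ⟨i, rfl⟩
        rw [hgy] at h4
        have h5 : (g i)⁻¹ * σ * g i ∈ G0 := G0.mul_mem (G0.mul_mem (G0.inv_mem (hgG i)) hσ.1) (hgG i)
        rw [← hH, hmemH _ h5]
        change (g i)⁻¹ (σ (g i γ)) = γ
        rw [h4]
        change ((g i)⁻¹ * g i) γ = γ
        rw [inv_mul_cancel]
        rfl
      have h4 : (⨅ i, lstab (act K) (act K (g i) a)).index ≤
          G0.index * (IntermediateField.adjoin ℚ (Set.range y)).fixingSubgroup.index :=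
        (Nat.le_of_dvd (Nat.pos_of_ne_zero Subgroup.index_ne_zero_of_finite)
          (Subgroup.index_dvd_of_le h3)).trans Subgroup.index_inf_le
      have h5 : G0.index = Module.finrank ℚ (fixedField G0) := (finrank_fixedField_eq G0).symm
      have h6 : (IntermediateField.adjoin ℚ (Set.range y)).fixingSubgroup.index =
          Module.finrank ℚ (IntermediateField.adjoin ℚ (Set.range y)) :=
        (finrank_eq_fixingSubgroup_index _ _).symm
      rw [h5, h6] at h4
      calc n ^ r ≤ WW (Cr r) n Y * (⨅ i, stab (act K) (act K (g i) a)).index := h1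
        _ ≤ WW C n Y * (2 ^ r * (Module.finrank ℚ (fixedField G0) *
              Module.finrank ℚ (IntermediateField.adjoin ℚ (Set.range y)))) :=
            Nat.mul_le_mul (WW_mono (hCrle r hrA) hC1 hY) (h2.trans (Nat.mul_le_mul_left _ h4))
        _ = _ := by ring
  · left
    refine ⟨two_lt_of_dependent (act K) ha0 g hdist hli, ?_⟩
    have h1 := rank_le_of_dependent (act K) ha0 (WW C n Y) H2n g hdist hli
    exact smallRank_of_finrank ι hβU (h1.trans (Nat.mul_le_mul_right _ (Nat.pow_le_pow_left hrA 2)))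

end

end Pool.Agent.H4.Leh
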