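import Pool.Agent.H49.St.Gamma

/-!
# Short relations between the vectors of an orbit bound the dimension of their span

If all orbits of the stabiliser of `a` on the orbit of `a`, except `a` and `- a`, have length at least `n / W`, and `k + 1` pairwise
non-proportional vectors of the orbit are linearly dependent, then the orbit spans a space of dimension at most `k ^ 2 * W`.
-/

set_option autoImplicit false

namespace Pool.Agent.H4.Leh

open Pool.Agent.H49.St

section bessel

variable {X : Type*} [Fintype X]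

/-- `d` independent solutions of `N c = - c` force `d ≤ ‖N‖ ^ 2` (Frobenius norm). -/
theorem card_le_frobenius {d : ℕ} (c : Fin d → EuclideanSpace ℝ X)
    (hli : LinearIndependent ℝ c) (N : X → X → ℝ)
    (hN : ∀ j x, ∑ y, N x y * c j y = - c j x) : (d : ℝ) ≤ ∑ x, ∑ y, N x y ^ 2 := by
  set U : Submodule ℝ (EuclideanSpace ℝ X) := Submodule.span ℝ (Set.range c) with hU
  have hfr : Module.finrank ℝ U = d := by
    rw [hU, finrank_span_eq_card hli, Fintype.card_fin]
  have hmem : ∀ u ∈ U, ∀ x, ∑ y, N x y * u y = - u x := by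
    intro u hu
    refine Submodule.span_induction (p := fun u _ => ∀ x, ∑ y, N x y * u y = - u x) ?_ ?_ ?_ ?_ hu
    · rintro _ ⟨j, rfl⟩
      exact hN j
    · intro x
      simp
    · intro u v _ _ h1 h2 x
      have : ∀ y, N x y * (u + v) y = N x y * u y + N x y * v y := fun y => by
        rw [PiLp.add_apply, mul_add]
      rw [Finset.sum_congr rfl fun y _ => this y, Finset.sum_add_distrib, h1, h2, PiLp.add_apply]
      ring
    · intro r u _ h1 x
      have : ∀ y, N x y * (r • u) y = r * (N x y * u y) := fun y => by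
        rw [PiLp.smul_apply, smul_eq_mul]; ring
      rw [Finset.sum_congr rfl fun y _ => this y, ← Finset.mul_sum, h1, PiLp.smul_apply, smul_eq_mul]
      ring
  let b := stdOrthonormalBasis ℝ U
  have hb : Orthonormal ℝ (fun j => ((b j : U) : EuclideanSpace ℝ X)) := by
    have := b.orthonormal
    exact this.comp_linearIsometry U.subtypeₗᵢ
  have key : ∀ x, ∑ j, (∑ y, N x y * ((b j : U) : EuclideanSpace ℝ X) y) ^ 2 ≤ ∑ y, N x y ^ 2 := by
    intro x
    have h1 := hb.sum_inner_products_le (WithLp.toLp 2 (N x)) (s := Finset.univ)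
    have h2 : ‖(WithLp.toLp 2 (N x) : EuclideanSpace ℝ X)‖ ^ 2 = ∑ y, N x y ^ 2 := by
      rw [EuclideanSpace.norm_sq_eq]
      exact Finset.sum_congr rfl fun y _ => by rw [Real.norm_eq_abs, sq_abs]
    rw [h2] at h1
    refine le_trans (le_of_eq ?_) h1
    refine Finset.sum_congr rfl fun j _ => ?_
    rw [Real.norm_eq_abs, sq_abs]
    have h6 : inner ℝ ((b j : U) : EuclideanSpace ℝ X) (WithLp.toLp 2 (N x)) =
        ∑ y, N x y * ((b j : U) : EuclideanSpace ℝ X) y := by
      rw [PiLp.inner_apply]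
      exact Finset.sum_congr rfl fun y _ => by simp
    rw [h6]
  have h3 : ∀ j, ∑ x, (∑ y, N x y * ((b j : U) : EuclideanSpace ℝ X) y) ^ 2 = 1 := by
    intro j
    have h4 : ‖((b j : U) : EuclideanSpace ℝ X)‖ ^ 2 = 1 := by
      have h5 := hb.1 j
      rw [h5]; norm_num
    rw [EuclideanSpace.norm_sq_eq] at h4
    rw [← h4]
    refine Finset.sum_congr rfl fun x _ => ?_
    rw [hmem _ (b j).2 x, Real.norm_eq_abs, sq_abs]
    ring
  calc (d : ℝ) = ∑ _j : Fin (Module.finrank ℝ U), (1 : ℝ) := by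
        rw [Finset.sum_const, Finset.card_univ, Fintype.card_fin, hfr]; simp
    _ = ∑ j, ∑ x, (∑ y, N x y * ((b j : U) : EuclideanSpace ℝ X) y) ^ 2 :=
        Finset.sum_congr rfl fun j _ => (h3 j).symm
    _ = ∑ x, ∑ j, (∑ y, N x y * ((b j : U) : EuclideanSpace ℝ X) y) ^ 2 := Finset.sum_comm
    _ ≤ ∑ x, ∑ y, N x y ^ 2 := Finset.sum_le_sum fun x _ => key x

end bessel

section group

variable {G V : Type*} [Group G] [Finite G] [AddCommGroup V] [Module ℚ V]

/-- The number of `s` in the stabiliser with `ρ (g * s * h) a = y` is at most the order of the stabiliser of the pair `a`, `ρ h a`. -/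
theorem fiber_le (ρ : G →* Module.End ℚ V) (a : V) (g h : G) (y : V) :
    Nat.card {s : stab ρ a // ρ (g * s * h) a = y} ≤ Nat.card (stab ρ a ⊓ stab ρ (ρ h a) : Subgroup G) := by
  by_cases hne : Nonempty {s : stab ρ a // ρ (g * s * h) a = y}
  · obtain ⟨s0⟩ := hne
    refine Nat.card_le_card_of_injective (fun s => (⟨(s0.1 : G)⁻¹ * (s.1 : G), ?_, ?_⟩ :
      (stab ρ a ⊓ stab ρ (ρ h a) : Subgroup G))) ?_
    · exact (stab ρ a).mul_mem ((stab ρ a).inv_mem s0.1.2) s.1.2
    · change ρ ((s0.1 : G)⁻¹ * (s.1 : G)) (ρ h a) = ρ h a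
      have h1 : ρ g (ρ (s0.1 : G) (ρ h a)) = ρ g (ρ (s.1 : G) (ρ h a)) := by
        rw [← mul_apply_end, ← mul_apply_end, ← mul_apply_end, ← mul_apply_end]
        exact s0.2.trans s.2.symm
      have h2 := apply_injective ρ g h1
      rw [mul_apply_end, ← h2, inv_apply_apply]
    · intro s t hst
      have h1 := congrArg Subtype.val hst
      have h2 : (s.1 : G) = (t.1 : G) := mul_left_cancel h1
      exact Subtype.ext (Subtype.ext h2)
  · have : IsEmpty {s : stab ρ a // ρ (g * s * h) a = y} := not_nonempty_iff.mp hne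
    rw [Nat.card_of_isEmpty]
    exact Nat.zero_le _

theorem sum_fiber {S X : Type*} [Fintype S] [Fintype X] (f : S → X) (φ : X → ℝ) :
    ∑ y, (Nat.card {s : S // f s = y} : ℝ) * φ y = ∑ s, φ (f s) := by
  classical
  have h1 : ∀ y, (Nat.card {s : S // f s = y} : ℝ) * φ y = ∑ s, if f s = y then φ y else 0 := by
    intro y
    rw [Finset.sum_ite, Finset.sum_const_zero, add_zero, Finset.sum_const, nsmul_eq_mul,
      Nat.card_eq_fintype_card, Fintype.card_subtype]
  rw [Finset.sum_congr rfl fun y _ => h1 y, Finset.sum_comm]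
  refine Finset.sum_congr rfl fun s _ => ?_
  simp

/-- A short relation bounds the rank. -/
theorem rank_le_of_relation (ρ : G →* Module.End ℚ V) (a : V) (W : ℕ) {k : ℕ} (h : Fin k → G)
    (lam : Fin k → ℚ) (hlam : ∀ i, |lam i| ≤ 1) (hrel : a + ∑ i, lam i • ρ (h i) a = 0)
    (hB : ∀ i, (stab ρ a).index ^ 2 ≤ W * (stab ρ a ⊓ stab ρ (ρ (h i) a)).index) :
    Module.finrank ℚ (Submodule.span ℚ (Set.range fun g => ρ g a)) ≤ k ^ 2 * W := by
  classical
  set X : Set V := Set.range (fun g => ρ g a) with hX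
  have hXf : X.Finite := Set.finite_range _
  have : Fintype X := hXf.fintype
  set S := stab ρ a with hS
  have : Fintype S := Fintype.ofFinite _
  set n := S.index with hn
  have hn0 : 0 < n := Nat.pos_of_ne_zero Subgroup.index_ne_zero_of_finite
  have hnR : (0 : ℝ) < n := by exact_mod_cast hn0
  have hS0 : 0 < Nat.card S := Nat.card_pos
  have hSR : (0 : ℝ) < Nat.card S := by exact_mod_cast hS0
  -- representatives
  have hg : ∀ x : X, ∃ g : G, ρ g a = x := fun x => x.2
  choose gx hgx using hg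
  have hcardX : Fintype.card X ≤ n := by
    rw [← Nat.card_eq_fintype_card, hn, Subgroup.index]
    refine Nat.card_le_card_of_injective (fun x => (gx x : G ⧸ S)) ?_
    intro x y hxy
    have h1 : (gx x)⁻¹ * gx y ∈ S := QuotientGroup.eq.mp hxy
    have h2 : ρ ((gx x)⁻¹ * gx y) a = a := h1
    apply Subtype.ext
    rw [← hgx x, ← hgx y, ← h2, ← mul_apply_end, mul_inv_cancel_left, h2]
  -- the fibres
  let f : Fin k → X → S → X := fun i x s => ⟨ρ (gx x * s * h i) a, ⟨_, rfl⟩⟩
  let P : Fin k → X → X → ℝ := fun i x y => (Nat.card {s : S // f i x s = y} : ℝ) / Nat.card S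
  have hP0 : ∀ i x y, 0 ≤ P i x y := fun i x y => by positivity
  have hP1 : ∀ i x, ∑ y, P i x y = 1 := by
    intro i x
    have h1 := sum_fiber (f i x) (fun _ => (1 : ℝ))
    simp only [mul_one, Finset.sum_const, nsmul_eq_mul, Finset.card_univ] at h1
    change ∑ y, (Nat.card {s : S // f i x s = y} : ℝ) / Nat.card S = 1
    rw [← Finset.sum_div, h1, ← Nat.card_eq_fintype_card, div_self hSR.ne']
  have hPW : ∀ i x y, P i x y ≤ W / n := by
    intro i x y
    have h1 : Nat.card {s : S // f i x s = y} ≤ Nat.card (S ⊓ stab ρ (ρ (h i) a) : Subgroup G) := by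
      refine le_trans (le_of_eq ?_) (fiber_le ρ a (gx x) (h i) y)
      refine Nat.card_congr (Equiv.subtypeEquivRight fun s => ?_)
      exact Subtype.ext_iff
    have h2 : Nat.card (S ⊓ stab ρ (ρ (h i) a) : Subgroup G) * n ≤ W * Nat.card S := by
      have h3 := Subgroup.card_mul_index (S ⊓ stab ρ (ρ (h i) a))
      have h4 := Subgroup.card_mul_index S
      have h5 := hB i
      rw [← hn] at h4
      have h6 : (Nat.card (S ⊓ stab ρ (ρ (h i) a) : Subgroup G) * n) * n ≤ (W * Nat.card S) * n := by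
        calc (Nat.card (S ⊓ stab ρ (ρ (h i) a) : Subgroup G) * n) * n
            = Nat.card (S ⊓ stab ρ (ρ (h i) a) : Subgroup G) * n ^ 2 := by ring
          _ ≤ Nat.card (S ⊓ stab ρ (ρ (h i) a) : Subgroup G) * (W * (S ⊓ stab ρ (ρ (h i) a)).index) :=
              Nat.mul_le_mul_left _ h5
          _ = W * (Nat.card (S ⊓ stab ρ (ρ (h i) a) : Subgroup G) * (S ⊓ stab ρ (ρ (h i) a)).index) := by ring
          _ = W * (Nat.card S * n) := by rw [h3, h4]
          _ = (W * Nat.card S) * n := by ring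
      exact Nat.le_of_mul_le_mul_right h6 hn0
    change (Nat.card {s : S // f i x s = y} : ℝ) / Nat.card S ≤ W / n
    rw [div_le_div_iff₀ hSR hnR]
    have h3 : (Nat.card {s : S // f i x s = y} : ℝ) ≤ Nat.card (S ⊓ stab ρ (ρ (h i) a) : Subgroup G) := by
      exact_mod_cast h1
    have h4 : (Nat.card (S ⊓ stab ρ (ρ (h i) a) : Subgroup G) : ℝ) * n ≤ W * Nat.card S := by exact_mod_cast h2
    exact (mul_le_mul_of_nonneg_right h3 hnR.le).trans h4
  have hP2 : ∀ i x, ∑ y, P i x y ^ 2 ≤ W / n := by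
    intro i x
    calc ∑ y, P i x y ^ 2 ≤ ∑ y, (W / n) * P i x y := by
          refine Finset.sum_le_sum fun y _ => ?_
          rw [sq]
          exact mul_le_mul_of_nonneg_right (hPW i x y) (hP0 i x y)
      _ = W / n := by rw [← Finset.mul_sum, hP1, mul_one]
  let N : X → X → ℝ := fun x y => ∑ i, (lam i : ℝ) * P i x y
  have hNrow : ∀ x, ∑ y, N x y ^ 2 ≤ k ^ 2 * (W / n) := by
    intro x
    have h1 : ∀ y, N x y ^ 2 ≤ k * ∑ i, P i x y ^ 2 := by
      intro y
      have h2 := sq_sum_le_card_mul_sum_sq (s := (Finset.univ : Finset (Fin k))) (f := fun i => (lam i : ℝ) * P i x y)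
      rw [Finset.card_univ, Fintype.card_fin] at h2
      refine h2.trans (mul_le_mul_of_nonneg_left (Finset.sum_le_sum fun i _ => ?_) (Nat.cast_nonneg k))
      rw [mul_pow]
      have h3 : ((lam i : ℝ)) ^ 2 ≤ 1 := by
        have h4 : |(lam i : ℝ)| ≤ 1 := by exact_mod_cast hlam i
        rw [← sq_abs]
        nlinarith [abs_nonneg (lam i : ℝ)]
      nlinarith [sq_nonneg (P i x y)]
    calc ∑ y, N x y ^ 2 ≤ ∑ y, k * ∑ i, P i x y ^ 2 := Finset.sum_le_sum fun y _ => h1 y
      _ = k * ∑ i, ∑ y, P i x y ^ 2 := by rw [← Finset.mul_sum, Finset.sum_comm]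
      _ ≤ k * ∑ _i : Fin k, (W / n : ℝ) :=
          mul_le_mul_of_nonneg_left (Finset.sum_le_sum fun i _ => hP2 i x) (Nat.cast_nonneg k)
      _ = k ^ 2 * (W / n) := by
          rw [Finset.sum_const, Finset.card_univ, Fintype.card_fin, nsmul_eq_mul]; ring
  -- functionals
  obtain ⟨b, hbX, hbspan, hbli⟩ := exists_linearIndependent ℚ X
  have hbfin : b.Finite := hXf.subset hbX
  have : Fintype b := hbfin.fintype
  have hfr : Module.finrank ℚ (Submodule.span ℚ X) = Fintype.card b := by
    have h1 := finrank_span_eq_card (R := ℚ) (b := (Subtype.val : b → V)) hbli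
    rw [Subtype.range_coe_subtype, Set.ofPred_mem_eq] at h1
    rw [← h1, hbspan]
  set d := Fintype.card b with hd
  let e : Fin d ≃ b := (Fintype.equivFin b).symm
  let v : Fin d → V := fun j => (e j : V)
  have hv : LinearIndependent ℚ v := hbli.comp e e.injective
  have hφ : ∀ j, ∃ φ : V →ₗ[ℚ] ℚ, ∀ i, φ (v i) = if i = j then 1 else 0 := by
    intro j
    obtain ⟨φ, hφ⟩ := LinearMap.exists_extend ((Module.Basis.span hv).coord j)
    refine ⟨φ, fun i => ?_⟩
    have h1 := LinearMap.congr_fun hφ (Module.Basis.span hv i)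
    rw [Module.Basis.coord_apply, Module.Basis.repr_self, Finsupp.single_apply] at h1
    rw [← h1, LinearMap.comp_apply, Submodule.subtype_apply, Module.Basis.span_apply]
  choose φ hφ using hφ
  let c : Fin d → EuclideanSpace ℝ X := fun j => WithLp.toLp 2 (fun x : X => ((φ j (x : V) : ℚ) : ℝ))
  have hcli : LinearIndependent ℝ c := by
    rw [Fintype.linearIndependent_iff]
    intro g hg i
    have h1 := congrArg (fun u : EuclideanSpace ℝ X => u ⟨v i, hbX (e i).2⟩) hg
    simp only [PiLp.zero_apply] at h1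
    rw [WithLp.ofLp_sum, Finset.sum_apply] at h1
    have h2 : ∀ j, (g j • c j) ⟨v i, hbX (e i).2⟩ = if i = j then g j else 0 := by
      intro j
      rw [PiLp.smul_apply, smul_eq_mul]
      change g j * ((φ j (v i) : ℚ) : ℝ) = _
      rw [hφ]
      split_ifs <;> simp
    rw [Finset.sum_congr rfl fun j _ => h2 j] at h1
    simpa using h1
  have hN : ∀ j x, ∑ y, N x y * c j y = - c j x := by
    intro j x
    have h1 : ∀ i, ∑ y, P i x y * c j y = (∑ s : S, ((φ j (ρ (gx x * s * h i) a) : ℚ) : ℝ)) / Nat.card S := by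
      intro i
      have h2 := sum_fiber (f i x) (fun y => c j y)
      have h3 : ∀ s, c j (f i x s) = ((φ j (ρ (gx x * s * h i) a) : ℚ) : ℝ) := fun s => rfl
      rw [Finset.sum_congr rfl fun s _ => h3 s] at h2
      rw [← h2, Finset.sum_div]
      refine Finset.sum_congr rfl fun y _ => ?_
      change (Nat.card {s : S // f i x s = y} : ℝ) / Nat.card S * c j y = _
      ring
    have h4 : ∑ y, N x y * c j y = ∑ i, (lam i : ℝ) * ∑ y, P i x y * c j y := by
      have h5 : ∀ y, N x y * c j y = ∑ i, (lam i : ℝ) * (P i x y * c j y) := by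
        intro y
        change (∑ i, (lam i : ℝ) * P i x y) * c j y = _
        rw [Finset.sum_mul]
        exact Finset.sum_congr rfl fun i _ => by ring
      rw [Finset.sum_congr rfl fun y _ => h5 y, Finset.sum_comm]
      exact Finset.sum_congr rfl fun i _ => by rw [Finset.mul_sum]
    have h6 : ∀ s : S, φ j (x : V) + ∑ i, lam i * φ j (ρ (gx x * s * h i) a) = 0 := by
      intro s
      have h7 := congrArg (fun z => φ j (ρ (gx x * s) z)) hrel
      simp only [map_add, map_zero, map_sum, map_smul, smul_eq_mul] at h7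
      have h8 : ρ (gx x * s) a = x := by
        rw [mul_apply_end]
        have : ρ (s : G) a = a := s.2
        rw [this, hgx]
      rw [h8] at h7
      rw [← h7]
      congr 1
      refine Finset.sum_congr rfl fun i _ => ?_
      rw [mul_apply_end ρ (gx x * s) (h i) a]
    have h9 : (Nat.card S : ℝ) * c j x + ∑ i, (lam i : ℝ) * ∑ s : S, ((φ j (ρ (gx x * s * h i) a) : ℚ) : ℝ) = 0 := by
      have h10 : ∑ s : S, (((φ j (x : V) + ∑ i, lam i * φ j (ρ (gx x * s * h i) a) : ℚ)) : ℝ) = 0 := by
        rw [Finset.sum_congr rfl fun s _ => by rw [h6 s]]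
        simp
      simp only [Rat.cast_add, Rat.cast_sum, Rat.cast_mul] at h10
      rw [Finset.sum_add_distrib, Finset.sum_const, Finset.card_univ, nsmul_eq_mul, Finset.sum_comm,
        ← Nat.card_eq_fintype_card] at h10
      rw [← h10]
      congr 1
      exact Finset.sum_congr rfl fun i _ => by rw [Finset.mul_sum]
    rw [h4, Finset.sum_congr rfl fun i _ => by rw [h1 i]]
    have h11 : ∑ i, (lam i : ℝ) * ((∑ s : S, ((φ j (ρ (gx x * s * h i) a) : ℚ) : ℝ)) / Nat.card S) =
        (∑ i, (lam i : ℝ) * ∑ s : S, ((φ j (ρ (gx x * s * h i) a) : ℚ) : ℝ)) / Nat.card S := by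
      rw [Finset.sum_div]
      exact Finset.sum_congr rfl fun i _ => by ring
    rw [h11, div_eq_iff hSR.ne']
    linarith
  have key := card_le_frobenius c hcli N hN
  have hfin : (d : ℝ) ≤ (k ^ 2 * W : ℕ) := by
    calc (d : ℝ) ≤ ∑ x, ∑ y, N x y ^ 2 := key
      _ ≤ ∑ _x : X, (k : ℝ) ^ 2 * (W / n) := Finset.sum_le_sum fun x _ => hNrow x
      _ = Fintype.card X * ((k : ℝ) ^ 2 * (W / n)) := by
          rw [Finset.sum_const, Finset.card_univ, nsmul_eq_mul]
      _ ≤ n * ((k : ℝ) ^ 2 * (W / n)) :=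
          mul_le_mul_of_nonneg_right (by exact_mod_cast hcardX) (by positivity)
      _ = (k ^ 2 * W : ℕ) := by
          push_cast
          field_simp
  rw [hfr]
  exact_mod_cast hfin

/-- If `r` vectors of the orbit, pairwise not equal up to sign, are dependent, then the orbit spans a space of small dimension. -/
theorem rank_le_of_dependent (ρ : G →* Module.End ℚ V) {a : V} (ha : a ≠ 0) (W : ℕ)
    (H2 : ∀ s, LinearIndependent ℚ ![a, ρ s a] →
      (stab ρ a).index ^ 2 ≤ W * (stab ρ a ⊓ stab ρ (ρ s a)).index)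
    {r : ℕ} (g : Fin r → G) (hg : ∀ i j, i ≠ j → (g i)⁻¹ * g j ∉ lstab ρ a)
    (hdep : ¬ LinearIndependent ℚ (fun i => ρ (g i) a)) :
    Module.finrank ℚ (Submodule.span ℚ (Set.range fun g => ρ g a)) ≤ r ^ 2 * W := by
  rw [Fintype.not_linearIndependent_iff] at hdep
  obtain ⟨c, hc, j0, hj0⟩ := hdep
  have : Nonempty (Fin r) := ⟨j0⟩
  obtain ⟨i0, hi0⟩ := Finite.exists_max (fun i => |c i|)
  have hci : 0 < |c i0| := lt_of_lt_of_le (abs_pos.mpr hj0) (hi0 j0)
  have hc0 : c i0 ≠ 0 := abs_pos.mp hci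
  rcases r with _ | k
  · exact i0.elim0
  have key := rank_le_of_relation ρ a W (fun j : Fin k => (g i0)⁻¹ * g (i0.succAbove j))
    (fun j => c (i0.succAbove j) / c i0) (by
      intro j
      rw [abs_div, div_le_one hci]
      exact hi0 _) (by
      rw [Fin.sum_univ_succAbove _ i0] at hc
      have h1 := congrArg (fun z => (c i0)⁻¹ • ρ (g i0)⁻¹ z) hc
      simp only [map_add, map_zero, smul_zero, map_sum, map_smul, smul_add, Finset.smul_sum,
        smul_smul] at h1
      rw [inv_mul_cancel₀ hc0, one_smul, inv_apply_apply] at h1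
      rw [← h1]
      congr 1
      refine Finset.sum_congr rfl fun j _ => ?_
      rw [mul_apply_end, div_eq_inv_mul]) (by
      intro j
      exact H2 _ (li_pair ρ ha (hg _ _ (Fin.succAbove_ne i0 j).symm)))
  refine key.trans (Nat.mul_le_mul_right _ (Nat.pow_le_pow_left (Nat.le_succ k) 2))

/-- Two vectors of the orbit are independent unless equal up to sign. -/
theorem two_lt_of_dependent (ρ : G →* Module.End ℚ V) {a : V} (ha : a ≠ 0)
    {r : ℕ} (g : Fin r → G) (hg : ∀ i j, i ≠ j → (g i)⁻¹ * g j ∉ lstab ρ a)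
    (hdep : ¬ LinearIndependent ℚ (fun i => ρ (g i) a)) : 2 < r := by
  by_contra hr
  apply hdep
  have hr' : r = 0 ∨ r = 1 ∨ r = 2 := by omega
  have hne : ∀ i, ρ (g i) a ≠ 0 := by
    intro i h
    apply ha
    rw [← inv_apply_apply ρ (g i) a, h, map_zero]
  rcases hr' with rfl | rfl | rfl
  · exact linearIndependent_empty_type
  · rw [linearIndependent_unique_iff]
    exact hne _
  · have h1 := li_pair ρ ha (hg 0 1 (by decide))
    rw [LinearIndependent.pair_iff] at h1
    have h2 : (fun i => ρ (g i) a) = ![ρ (g 0) a, ρ (g 1) a] := by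
      funext i
      fin_cases i <;> rfl
    rw [h2, LinearIndependent.pair_iff]
    intro s t hst
    apply h1
    have h3 := congrArg (ρ (g 0)⁻¹) hst
    rw [map_add, map_smul, map_smul, map_zero, inv_apply_apply] at h3
    rw [mul_apply_end]
    exact h3

/-- The index of the stabiliser of a tuple of vectors and that of the tuple of lines. -/
theorem index_iInf_stab_le' (ρ : G →* Module.End ℚ V) {r : ℕ} (x : Fin r → V) :
    (⨅ i, stab ρ (x i)).index ≤ 2 ^ r * (⨅ i, lstab ρ (x i)).index := by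
  have hle : (⨅ i, stab ρ (x i)) ≤ ⨅ i, lstab ρ (x i) := iInf_mono fun i => stab_le_lstab
  rw [index_eq_mul hle]
  apply Nat.mul_le_mul_right
  calc (⨅ i, stab ρ (x i)).relIndex (⨅ i, lstab ρ (x i))
      ≤ ∏ i, (stab ρ (x i)).relIndex (⨅ i, lstab ρ (x i)) := Subgroup.relIndex_iInf_le _
    _ ≤ ∏ _i : Fin r, 2 := Finset.prod_le_prod' fun i _ => relIndex_stab_le_of_le ρ _ (iInf_le _ i)
    _ = 2 ^ r := by rw [Finset.prod_const, Finset.card_univ, Fintype.card_fin]

end group

end Pool.Agent.H4.Leh
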